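import Pool.Agent.Helper32.NO.Defs

/-!
# The weighted permutation character as a sum of irreducible characters
-/

set_option autoImplicit false
open scoped BigOperators MonoidAlgebra
open Classical

namespace Pool.Agent.Helper63.NO

open Pool.Agent.Helper36.NB Pool.Agent.Helper44.S3 Pool.Agent.Helper32.ND
open Pool.Agent.Helper32.NO

section fix

variable {G : Type} [Group G] [Fintype G] (P : G → Prop) (hP : ∀ g v, P v → P (g * v * g⁻¹))

/-- The action of `g` on the elements with `P` by conjugation. -/
def cmv (g : G) (v : {v : G // P v}) : {v : G // P v} := ⟨g * v.1 * g⁻¹, hP g v.1 v.2⟩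

/-- The permutation representation. -/
noncomputable def prep : Representation ℂ G ({v : G // P v} → ℂ) where
  toFun g := LinearMap.funLeft ℂ ℂ (cmv P hP g⁻¹)
  map_one' := by
    ext f v
    simp [LinearMap.funLeft_apply, cmv]
  map_mul' g h := by
    refine LinearMap.ext fun f => funext fun v => ?_
    simp only [LinearMap.funLeft_apply, Module.End.mul_apply]
    congr 1
    apply Subtype.ext
    simp only [cmv]
    group

theorem prep_char (g : G) : (prep P hP).character g =
    ∑ v : G, if (P v ∧ v * g = g * v) then (1 : ℂ) else 0 := by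
  have h1 : (prep P hP).character g = ∑ v : {v : G // P v},
      (if v.1 * g = g * v.1 then (1 : ℂ) else 0) := by
    rw [Representation.character, LinearMap.trace_eq_matrix_trace ℂ (Pi.basisFun ℂ _),
      Matrix.trace]
    refine Finset.sum_congr rfl fun v _ => ?_
    rw [Matrix.diag_apply, LinearMap.toMatrix_apply, Pi.basisFun_repr, Pi.basisFun_apply]
    change (Pi.single v (1 : ℂ) : {v : G // P v} → ℂ) (cmv P hP g⁻¹ v) = _
    rw [Pi.single_apply]
    refine if_congr ?_ rfl rfl
    rw [Subtype.ext_iff]
    simp only [cmv, inv_inv]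
    constructor
    · intro h
      calc v.1 * g = g * (g⁻¹ * v.1 * g) := by group
        _ = g * v.1 := by rw [h]
    · intro h
      calc g⁻¹ * v.1 * g = g⁻¹ * (v.1 * g) := by group
        _ = g⁻¹ * (g * v.1) := by rw [h]
        _ = v.1 := by group
  rw [h1]
  have h2 := Finset.sum_subtype (F := Subtype.fintype P) (Finset.univ.filter P) (p := P)
    (by intro x; simp) (fun v => if v * g = g * v then (1 : ℂ) else 0)
  rw [← h2, Finset.sum_filter]
  refine Finset.sum_congr rfl fun v _ => ?_
  by_cases h : P v
  · simp [h]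
  · simp [h]

include hP in
theorem isChar_fix : IsChar (fun h : G => ∑ v : G, if (P v ∧ v * h = h * v) then (1 : ℂ) else 0) := by
  have h1 := E1aux.ofRep (prep P hP)
  have h2 : (prep P hP).character =
      fun h : G => ∑ v : G, if (P v ∧ v * h = h * v) then (1 : ℂ) else 0 := by
    funext g
    exact prep_char P hP g
  rw [h2] at h1
  exact h1

end fix

variable {G : Type} [Group G] [Fintype G]

/-- The weighted permutation character is a character. -/
theorem isChar_wc (w : G → ℕ) (hw : ClassFun w) : IsChar (fun h : G => (wc w h : ℂ)) := by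
  have hB : ∀ v, w v ≤ ∑ v : G, w v := fun v =>
    Finset.single_le_sum (f := w) (fun _ _ => Nat.zero_le _) (Finset.mem_univ v)
  set B : ℕ := ∑ v : G, w v with hBd
  have h1 := C4aux.isChar_sum (N := G) (Finset.range B) (fun _ => 1)
    (fun m h => ∑ v : G, if (m < w v ∧ v * h = h * v) then (1 : ℂ) else 0)
    (fun m => by convert isChar_fix (fun v => m < w v) (fun g v h => by rw [hw]; exact h))
  have h2 : (fun h : G => (wc w h : ℂ)) = fun h : G => ∑ m ∈ Finset.range B, ((1 : ℕ) : ℂ) *
      ∑ v : G, if (m < w v ∧ v * h = h * v) then (1 : ℂ) else 0 := by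
    funext h
    unfold wc
    simp only [Nat.cast_one, one_mul]
    rw [Finset.sum_comm]
    push_cast
    refine Finset.sum_congr rfl fun v _ => ?_
    by_cases hv : v * h = h * v
    · simp only [hv, and_true, if_true]
      rw [← Finset.sum_filter, Finset.sum_const, nsmul_eq_mul, mul_one]
      congr 1
      have h3 : (Finset.range B).filter (fun m => m < w v) = Finset.range (w v) := by
        ext m
        simp only [Finset.mem_filter, Finset.mem_range]
        exact ⟨fun h => h.2, fun h => ⟨lt_of_lt_of_le h (hB v), h⟩⟩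
      rw [h3, Finset.card_range]
    · simp only [hv, and_false, if_false]
      rw [Finset.sum_const_zero]
  rw [h2]
  exact h1

/-- The weighted permutation character is a sum of irreducible characters. -/
theorem exists_mu (O : ValuationSubring ℂ) (I : IrrData G) (w : G → ℕ) (hw : ClassFun w) :
    ∃ μ : Fin I.r → ℕ, ∀ x : MonoidAlgebra O G,
      wsum O w x = ∑ a, (μ a : ℂ) * I.chi a (toC O G x) := by
  have hc := isChar_wc w hw
  choose μ hμ using fun a => char_inner (fun h : G => (wc w h : ℂ)) (I.ch a) hc (ch_isChar I a)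
  refine ⟨μ, fun x => ?_⟩
  unfold wsum
  have h1 : ∀ h : G, ((wc w h : ℕ) : ℂ) = ∑ a, (μ a : ℂ) * I.ch a h := by
    intro h
    have h2 := class_expand I (fun h : G => (wc w h : ℂ)) (fun g h => isChar_class hc g h) h
    rw [h2]
    exact Finset.sum_congr rfl fun a _ => by rw [hμ a]
  have h3 : ∀ a, I.chi a (toC O G x) = ∑ h : G, (x.coeff h : ℂ) * I.ch a h := by
    intro a
    rw [chi_eq_sum]
    exact Finset.sum_congr rfl fun h _ => by rw [toC_apply]
  simp only [h3, h1, Finset.mul_sum]
  rw [Finset.sum_comm]
  exact Finset.sum_congr rfl fun a _ => Finset.sum_congr rfl fun h _ => by ring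

/-- The weighted sum as a trace function. -/
theorem exists_wT (O : ValuationSubring ℂ) (w : G → ℕ) (hw : ClassFun w) :
    ∃ T : TraceFun O G, ∀ x, T.f x = wsum O w x := by
  obtain ⟨I⟩ := exists_irrData G
  obtain ⟨μ, hμ⟩ := exists_mu O I w hw
  refine ⟨⟨∑ a, (μ a : ℂ) • (TraceFun.ofChi O I a).f, ?_⟩, ?_⟩
  · intro x y
    simp only [LinearMap.sum_apply, LinearMap.smul_apply]
    exact Finset.sum_congr rfl fun a _ => by rw [(TraceFun.ofChi O I a).comm]
  · intro x
    rw [hμ]
    simp only [LinearMap.sum_apply, LinearMap.smul_apply]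
    exact Finset.sum_congr rfl fun a _ => by rw [TraceFun.ofChi_apply, smul_eq_mul]

/-- The weighted sum of an idempotent is a natural number. -/
theorem exists_nat (O : ValuationSubring ℂ) (w : G → ℕ) (hw : ClassFun w)
    (j : MonoidAlgebra O G) (hj : j * j = j) : ∃ M : ℕ, wsum O w j = M := by
  obtain ⟨I⟩ := exists_irrData G
  obtain ⟨μ, hμ⟩ := exists_mu O I w hw
  choose m hm using fun a => chi_idem I a (toC O G j) (by rw [← map_mul, hj])
  refine ⟨∑ a, μ a * m a, ?_⟩
  rw [hμ]
  push_cast
  exact Finset.sum_congr rfl fun a _ => by rw [hm]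

end Pool.Agent.Helper63.NO
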